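import Pool.Agent.BEZ.Stmts

/-!
# Squad BEZ, row BZI (MP_b48657_ag): the form in which the existence theorem is used
-/

set_option autoImplicit false

open MvPolynomial Finset Pool.Agent.Helper30_Simp

namespace Pool.Agent.BEZ.H51

variable {k σ : Type}

/-- restriction of an exponent to the variables outside `P` -/
noncomputable def rho (P : Finset σ) (a : σ →₀ ℕ) : {i // i ∉ P} →₀ ℕ :=
  Finsupp.subtypeDomain (fun i => i ∉ P) a

theorem rho_apply (P : Finset σ) (a : σ →₀ ℕ) (i : {i // i ∉ P}) : rho P a i = a i.1 := rfl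

/-- the polynomial `g j` -/
noncomputable def gp [Field k] (M : Finset (σ →₀ ℕ)) (c : (σ →₀ ℕ) → k) (P : Finset σ) (j : σ) :
    MvPolynomial {i // i ∉ P} k :=
  ∑ a ∈ M.filter (fun a => a j ≠ 0), monomial (rho P a) (c a)

/-- the hypothesis on the exponents -/
def HM (M : Finset (σ →₀ ℕ)) (P K : Finset σ) : Prop :=
  ∀ a ∈ M, ∀ j ∈ K, a j ≠ 0 → a j = 1 ∧ ∀ i ∈ P, i ≠ j → a i = 0

theorem rho_inj {M : Finset (σ →₀ ℕ)} {P K : Finset σ} (hM : HM M P K) {j : σ} (hj : j ∈ K)
    {a b : σ →₀ ℕ} (ha : a ∈ M) (hb : b ∈ M) (haj : a j ≠ 0) (hbj : b j ≠ 0)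
    (h : rho P a = rho P b) : a = b := by
  ext i
  by_cases hi : i ∈ P
  · by_cases hij : i = j
    · rw [hij, (hM a ha j hj haj).1, (hM b hb j hj hbj).1]
    · rw [(hM a ha j hj haj).2 i hi hij, (hM b hb j hj hbj).2 i hi hij]
  · have := DFunLike.congr_fun h ⟨i, hi⟩
    exact this

section coeffs

variable [Field k]

theorem coeff_gp {M : Finset (σ →₀ ℕ)} {c : (σ →₀ ℕ) → k} {P K : Finset σ} (hM : HM M P K) {j : σ}
    (hj : j ∈ K) {a : σ →₀ ℕ} (ha : a ∈ M) (haj : a j ≠ 0) :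
    coeff (rho P a) (gp M c P j) = c a := by
  classical
  unfold gp
  rw [coeff_sum, Finset.sum_eq_single a]
  · rw [coeff_monomial, if_pos rfl]
  · intro b hb hba
    rw [coeff_monomial, if_neg]
    intro h
    exact hba (rho_inj hM hj (Finset.mem_filter.1 hb).1 ha (Finset.mem_filter.1 hb).2 haj h)
  · intro h
    exact absurd (Finset.mem_filter.2 ⟨ha, haj⟩) h

theorem coeff_gp_zero {M : Finset (σ →₀ ℕ)} {c : (σ →₀ ℕ) → k} {P : Finset σ} {j : σ}
    {e : {i // i ∉ P} →₀ ℕ} (h : ∀ a ∈ M, a j ≠ 0 → rho P a ≠ e) :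
    coeff e (gp M c P j) = 0 := by
  classical
  unfold gp
  rw [coeff_sum]
  refine Finset.sum_eq_zero fun b hb => ?_
  rw [coeff_monomial, if_neg]
  exact h b (Finset.mem_filter.1 hb).1 (Finset.mem_filter.1 hb).2

theorem mem_supp_gp {M : Finset (σ →₀ ℕ)} {c : (σ →₀ ℕ) → k} {P K : Finset σ} (hM : HM M P K)
    (hc : ∀ a ∈ M, c a ≠ 0) {j : σ} (hj : j ∈ K) (e : {i // i ∉ P} →₀ ℕ) :
    e ∈ (gp M c P j).support ↔ ∃ a ∈ M, a j ≠ 0 ∧ rho P a = e := by
  rw [mem_support_iff]
  constructor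
  · intro h
    by_contra hcon
    refine h (coeff_gp_zero fun a ha haj hae => hcon ⟨a, ha, haj, hae⟩)
  · rintro ⟨a, ha, haj, rfl⟩
    rw [coeff_gp hM hj ha haj]
    exact hc a ha

end coeffs

variable [Fintype σ] [DecidableEq σ]

/-- the exponents of the initial form of `g j` -/
noncomputable def Bs (M : Finset (σ →₀ ℕ)) (P : Finset σ) (w : {i // i ∉ P} → ℤ) (j : σ) :
    Finset (σ →₀ ℕ) :=
  M.filter fun a => a j ≠ 0 ∧ ∀ b ∈ M, b j ≠ 0 → wt w (rho P a) ≤ wt w (rho P b)

theorem ini_gp [Field k] {M : Finset (σ →₀ ℕ)} {c : (σ →₀ ℕ) → k} {P K : Finset σ}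
    (hM : HM M P K) (hc : ∀ a ∈ M, c a ≠ 0) {j : σ} (hj : j ∈ K) (w : {i // i ∉ P} → ℤ) :
    ini w (gp M c P j) = ∑ a ∈ Bs M P w j, monomial (rho P a) (c a) := by
  classical
  unfold ini
  symm
  refine Finset.sum_bij (fun a _ => rho P a) ?_ ?_ ?_ ?_
  · intro a ha
    have ha' := Finset.mem_filter.1 ha
    refine Finset.mem_filter.2 ⟨(mem_supp_gp hM hc hj _).2 ⟨a, ha'.1, ha'.2.1, rfl⟩, ?_⟩
    intro e he
    obtain ⟨b, hb, hbj, rfl⟩ := (mem_supp_gp hM hc hj _).1 he
    exact ha'.2.2 b hb hbj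
  · intro a ha b hb h
    have ha' := Finset.mem_filter.1 ha
    have hb' := Finset.mem_filter.1 hb
    exact rho_inj hM hj ha'.1 hb'.1 ha'.2.1 hb'.2.1 h
  · intro e he
    have he' := Finset.mem_filter.1 he
    obtain ⟨a, ha, haj, rfl⟩ := (mem_supp_gp hM hc hj _).1 he'.1
    refine ⟨a, Finset.mem_filter.2 ⟨ha, haj, ?_⟩, rfl⟩
    intro b hb hbj
    exact he'.2 _ ((mem_supp_gp hM hc hj _).2 ⟨b, hb, hbj, rfl⟩)
  · intro a ha
    have ha' := Finset.mem_filter.1 ha
    rw [coeff_gp hM hj ha'.1 ha'.2.1]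

omit [DecidableEq σ] in
/-- a smooth polynomial has no singular point in the torus -/
theorem smoothPt [Field k] (F : MvPolynomial σ k) (hF : TorusSmooth F) (κ : Type) [Field κ]
    [Algebra k κ] (y : σ → κ) (h0 : aeval y F = 0) (h1 : ∀ i, aeval y (pderiv i F) = 0) :
    ∃ i, y i = 0 := by
  obtain ⟨n, hn⟩ := hF
  have hle : Ideal.span ({F} ∪ Set.range fun j => pderiv j F) ≤
      RingHom.ker (aeval y : MvPolynomial σ k →ₐ[k] κ) := by
    rw [Ideal.span_le]
    rintro p (hp | ⟨j, rfl⟩)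
    · rw [Set.mem_singleton_iff] at hp
      rw [hp]
      exact h0
    · exact h1 j
  have h2 : aeval y ((∏ i, X i : MvPolynomial σ k) ^ n) = 0 := hle hn
  rw [map_pow, map_prod] at h2
  have h3 : ∏ i, aeval y (X i : MvPolynomial σ k) = 0 := by
    by_contra hx
    exact pow_ne_zero n hx h2
  obtain ⟨i, -, hi⟩ := Finset.prod_eq_zero_iff.1 h3
  exact ⟨i, by rwa [aeval_X] at hi⟩

/-- weight of an exponent, divided in the two groups of variables -/
theorem wt_split (P : Finset σ) (w : {i // i ∉ P} → ℤ) (u : σ → ℤ)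
    (hu : ∀ i : {i // i ∉ P}, u i.1 = w i) (a : σ →₀ ℕ) :
    wt u a = wt w (rho P a) + ∑ i ∈ P, u i * (a i : ℤ) := by
  unfold wt
  have h1 := Fintype.sum_subtype_add_sum_subtype (fun i => i ∈ P) (fun i => u i * (a i : ℤ))
  rw [← h1, add_comm]
  refine congrArg₂ (· + ·) ?_ ?_
  · refine Finset.sum_congr rfl fun i _ => ?_
    rw [hu i, rho_apply]
  · exact (Finset.sum_subtype P (fun _ => Iff.rfl) fun i => u i * (a i : ℤ)).symm

/-- The face of the weight `u`. -/
theorem face_eq {M : Finset (σ →₀ ℕ)} {P K K' : Finset σ} (hKP : K ⊆ P) (hM : HM M P K)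
    (hK' : K' ⊆ K) (hne : K'.Nonempty) (w : {i // i ∉ P} → ℤ) (a0 : σ → σ →₀ ℕ)
    (ha0 : ∀ j ∈ K, a0 j ∈ Bs M P w j) :
    ∃ u : σ → ℤ, M.filter (fun a => ∀ b ∈ M, wt u a ≤ wt u b) = K'.biUnion (Bs M P w) := by
  classical
  set C : ℤ := 1 + ∑ a ∈ M, |wt w (rho P a)| with hC
  set u : σ → ℤ := fun i => if h : i ∈ P then (if i ∈ K' then -wt w (rho P (a0 i)) - C else 0)
    else w ⟨i, h⟩ with hu
  have hCa : ∀ a ∈ M, -C < wt w (rho P a) := by
    intro a ha
    have h1 : |wt w (rho P a)| ≤ ∑ a ∈ M, |wt w (rho P a)| :=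
      Finset.single_le_sum (f := fun a => |wt w (rho P a)|) (fun _ _ => abs_nonneg _) ha
    have h2 := neg_abs_le (wt w (rho P a))
    omega
  have huw : ∀ i : {i // i ∉ P}, u i.1 = w i := by
    intro i
    simp only [hu]
    rw [dif_neg i.2]
  have hval1 : ∀ j ∈ K', ∀ a ∈ M, a j ≠ 0 →
      wt u a = wt w (rho P a) - wt w (rho P (a0 j)) - C := by
    intro j hj a ha haj
    have hjK := hK' hj
    have hjP := hKP hjK
    rw [wt_split P w u huw a, Finset.sum_eq_single j]
    · rw [(hM a ha j hjK haj).1]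
      simp only [hu]
      rw [dif_pos hjP, if_pos hj]
      push_cast
      ring
    · intro i hi hij
      rw [(hM a ha j hjK haj).2 i hi hij]
      simp
    · intro h
      exact absurd hjP h
  have hval2 : ∀ a ∈ M, (∀ j ∈ K', a j = 0) → wt u a = wt w (rho P a) := by
    intro a ha hz
    rw [wt_split P w u huw a, Finset.sum_eq_zero, add_zero]
    intro i hi
    simp only [hu]
    rw [dif_pos hi]
    by_cases hiK : i ∈ K'
    · rw [hz i hiK]
      simp
    · rw [if_neg hiK, zero_mul]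
  have hmin : ∀ j ∈ K', ∀ b ∈ M, b j ≠ 0 → wt w (rho P (a0 j)) ≤ wt w (rho P b) := by
    intro j hj
    exact (Finset.mem_filter.1 (ha0 j (hK' hj))).2.2
  have hlow : ∀ b ∈ M, -C ≤ wt u b := by
    intro b hb
    by_cases hz : ∀ j ∈ K', b j = 0
    · rw [hval2 b hb hz]
      exact (hCa b hb).le
    · push Not at hz
      obtain ⟨j, hj, hbj⟩ := hz
      rw [hval1 j hj b hb hbj]
      have := hmin j hj b hb hbj
      omega
  refine ⟨u, ?_⟩
  ext a
  rw [Finset.mem_filter, Finset.mem_biUnion]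
  constructor
  · rintro ⟨ha, hall⟩
    obtain ⟨j0, hj0⟩ := hne
    have h0 := Finset.mem_filter.1 (ha0 j0 (hK' hj0))
    have h1 := hall _ h0.1
    rw [hval1 j0 hj0 _ h0.1 h0.2.1] at h1
    have hz : ¬ ∀ j ∈ K', a j = 0 := by
      intro hz
      rw [hval2 a ha hz] at h1
      have := hCa a ha
      omega
    push Not at hz
    obtain ⟨j, hj, haj⟩ := hz
    refine ⟨j, hj, Finset.mem_filter.2 ⟨ha, haj, fun b hb hbj => ?_⟩⟩
    rw [hval1 j hj a ha haj] at h1
    have := hmin j hj b hb hbj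
    omega
  · rintro ⟨j, hj, ha⟩
    have ha' := Finset.mem_filter.1 ha
    refine ⟨ha'.1, fun b hb => ?_⟩
    have h0 := Finset.mem_filter.1 (ha0 j (hK' hj))
    have h1 := ha'.2.2 _ h0.1 h0.2.1
    rw [hval1 j hj a ha'.1 ha'.2.1]
    have := hlow b hb
    omega

/-- The polynomial of the face. -/
theorem face_poly [Field k] {M : Finset (σ →₀ ℕ)} {c : (σ →₀ ℕ) → k} {P K K' : Finset σ}
    (hKP : K ⊆ P) (hM : HM M P K) (hc : ∀ a ∈ M, c a ≠ 0) (hK' : K' ⊆ K)
    (w : {i // i ∉ P} → ℤ) :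
    ∑ a ∈ K'.biUnion (Bs M P w), monomial a (c a) =
      ∑ j ∈ K', X j * rename Subtype.val (ini w (gp M c P j)) := by
  classical
  rw [Finset.sum_biUnion]
  · refine Finset.sum_congr rfl fun j hj => ?_
    have hjK := hK' hj
    have hjP := hKP hjK
    rw [ini_gp hM hc hjK w, map_sum, Finset.mul_sum]
    refine Finset.sum_congr rfl fun a ha => ?_
    have ha' := Finset.mem_filter.1 ha
    have haM := hM a ha'.1 j hjK ha'.2.1
    rw [rename_monomial, X, monomial_mul, one_mul]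
    refine congrArg (fun e => monomial e (c a)) ?_
    ext i
    rw [Finsupp.add_apply]
    by_cases hi : i ∈ P
    · have h1 : Finsupp.mapDomain Subtype.val (rho P a) i = 0 := by
        refine Finsupp.mapDomain_of_notMem_range _ _ ?_
        rintro ⟨x, rfl⟩
        exact x.2 hi
      rw [h1, add_zero]
      by_cases hij : i = j
      · rw [hij, Finsupp.single_eq_same, haM.1]
      · rw [haM.2 i hi hij, Finsupp.single_eq_of_ne hij]
    · have h1 : Finsupp.mapDomain Subtype.val (rho P a) i = a i :=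
        Finsupp.mapDomain_apply Subtype.val_injective (rho P a) ⟨i, hi⟩
      have hij : i ≠ j := fun h => hi (h ▸ hjP)
      rw [h1, Finsupp.single_eq_of_ne hij, zero_add]
  · intro j hj j' hj' hjj'
    refine Finset.disjoint_left.2 fun a ha ha' => ?_
    have h1 := Finset.mem_filter.1 ha
    have h2 := Finset.mem_filter.1 ha'
    exact h2.2.1 ((hM a h1.1 j (hK' hj) h1.2.1).2 j' (hKP (hK' hj')) (Ne.symm hjj'))

/-- The system is nondegenerate. -/
theorem ndg [Field k] {M : Finset (σ →₀ ℕ)} {c : (σ →₀ ℕ) → k} {P K : Finset σ}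
    (hKP : K ⊆ P) (hM : HM M P K) (hc : ∀ a ∈ M, c a ≠ 0)
    (hex : ∀ j ∈ K, ∃ a ∈ M, a j ≠ 0)
    (hT : ∀ u : σ → ℤ, TorusSmooth (∑ a ∈ M.filter (fun a => ∀ b ∈ M, wt u a ≤ wt u b),
      monomial a (c a))) :
    Ndg (fun j : K => gp M c P j.1) := by
  classical
  intro κ _ _ w η l hη h1 h2
  by_contra hcon
  push Not at hcon
  obtain ⟨j0, hj0⟩ := hcon
  set lE : σ → κ := fun i => if h : i ∈ K then l ⟨i, h⟩ else 0 with hlE
  have hlEv : ∀ j : K, lE j.1 = l j := by
    intro j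
    simp only [hlE]
    rw [dif_pos j.2]
  set K' : Finset σ := K.filter fun i => lE i ≠ 0 with hK'
  have hK'K : K' ⊆ K := Finset.filter_subset _ _
  have hne : K'.Nonempty := ⟨j0.1, Finset.mem_filter.2 ⟨j0.2, by rw [hlEv]; exact hj0⟩⟩
  -- minimal exponents
  have hmin : ∀ j, j ∈ K → ∃ a, a ∈ Bs M P w j := by
    intro j hj
    obtain ⟨a1, ha1, ha1j⟩ := hex j hj
    obtain ⟨a, ha, hamin⟩ := Finset.exists_min_image (M.filter fun a => a j ≠ 0)
      (fun a => wt w (rho P a)) ⟨a1, Finset.mem_filter.2 ⟨ha1, ha1j⟩⟩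
    have ha' := Finset.mem_filter.1 ha
    exact ⟨a, Finset.mem_filter.2 ⟨ha'.1, ha'.2, fun b hb hbj =>
      hamin b (Finset.mem_filter.2 ⟨hb, hbj⟩)⟩⟩
  choose! a0 ha0 using hmin
  obtain ⟨u, hu⟩ := face_eq hKP hM hK'K hne w a0 ha0
  have hTu := hT u
  rw [hu, face_poly hKP hM hc hK'K w] at hTu
  -- the point
  set y : σ → κ := fun i => if h : i ∈ P then (if i ∈ K' then lE i else 1) else η ⟨i, h⟩ with hy
  have hyη : (y ∘ Subtype.val : {i // i ∉ P} → κ) = η := by
    funext i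
    simp only [hy, Function.comp]
    rw [dif_neg i.2]
  have hyK : ∀ j ∈ K', y j = lE j := by
    intro j hj
    simp only [hy]
    rw [dif_pos (hKP (hK'K hj)), if_pos hj]
  have hev : ∀ q : MvPolynomial {i // i ∉ P} k, aeval y (rename Subtype.val q) = aeval η q := by
    intro q
    rw [aeval_rename, hyη]
  have hz : ∀ j ∈ K', aeval η (ini w (gp M c P j)) = 0 := fun j hj => h1 ⟨j, hK'K hj⟩
  have hP0 : aeval y (∑ j ∈ K', X j * rename Subtype.val (ini w (gp M c P j))) = 0 := by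
    rw [map_sum]
    refine Finset.sum_eq_zero fun j hj => ?_
    rw [map_mul, hev, hz j hj, mul_zero]
  have hP1 : ∀ i, aeval y (pderiv i (∑ j ∈ K', X j * rename Subtype.val
      (ini w (gp M c P j)))) = 0 := by
    intro i
    rw [map_sum, map_sum]
    have hterm : ∀ j ∈ K', aeval y (pderiv i (X j * rename Subtype.val (ini w (gp M c P j)))) =
        lE j * aeval y (pderiv i (rename Subtype.val (ini w (gp M c P j)))) := by
      intro j hj
      rw [pderiv_mul, map_add, map_mul, map_mul, hev, hz j hj, mul_zero, zero_add, aeval_X,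
        hyK j hj]
    rw [Finset.sum_congr rfl hterm]
    by_cases hiP : i ∈ P
    · refine Finset.sum_eq_zero fun j _ => ?_
      rw [pderiv_eq_zero_of_notMem_vars, map_zero, mul_zero]
      intro hmem
      have := vars_rename _ _ hmem
      obtain ⟨x, -, hx⟩ := Finset.mem_image.1 this
      exact x.2 (hx ▸ hiP)
    · have hterm2 : ∀ j ∈ K', lE j * aeval y (pderiv i (rename Subtype.val
          (ini w (gp M c P j)))) = lE j * aeval η (pderiv ⟨i, hiP⟩ (ini w (gp M c P j))) := by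
        intro j _
        have h3 := pderiv_rename (R := k) Subtype.val_injective (⟨i, hiP⟩ : {i // i ∉ P})
          (ini w (gp M c P j))
        rw [h3, hev]
      rw [Finset.sum_congr rfl hterm2]
      have h4 := h2 ⟨i, hiP⟩
      have h5 : ∑ j : K, l j * aeval η (pderiv ⟨i, hiP⟩ (ini w (gp M c P j.1))) =
          ∑ j ∈ K, lE j * aeval η (pderiv ⟨i, hiP⟩ (ini w (gp M c P j))) := by
        rw [← Finset.sum_coe_sort K
          (fun j => lE j * aeval η (pderiv ⟨i, hiP⟩ (ini w (gp M c P j))))]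
        refine Finset.sum_congr rfl fun j _ => ?_
        rw [hlEv j]
      rw [h5] at h4
      rw [hK', Finset.sum_filter]
      refine Eq.trans (Finset.sum_congr rfl fun j _ => ?_) h4
      by_cases hl : lE j = 0
      · rw [if_neg (not_not.2 hl), hl, zero_mul]
      · rw [if_pos hl]
  obtain ⟨i, hi⟩ := smoothPt _ hTu κ y hP0 hP1
  simp only [hy] at hi
  by_cases hiP : i ∈ P
  · rw [dif_pos hiP] at hi
    by_cases hiK : i ∈ K'
    · rw [if_pos hiK] at hi
      exact (Finset.mem_filter.1 hiK).2 hi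
    · rw [if_neg hiK] at hi
      exact one_ne_zero hi
  · rw [dif_neg hiP] at hi
    exact hη _ hi

/-- extension of a vector by zero -/
noncomputable def ext0 (P : Finset σ) : ({i // i ∉ P} → ℚ) →ₗ[ℚ] (σ → ℚ) where
  toFun v := fun i => if h : i ∈ P then 0 else v ⟨i, h⟩
  map_add' v v' := by
    funext i
    by_cases h : i ∈ P
    · simp [h]
    · simp [h]
  map_smul' r v := by
    funext i
    by_cases h : i ∈ P
    · simp [h]
    · simp [h]

/-- The Rado condition. -/
theorem radc [Field k] {M : Finset (σ →₀ ℕ)} {c : (σ →₀ ℕ) → k} {P K : Finset σ}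
    (hM : HM M P K) (hc : ∀ a ∈ M, c a ≠ 0)
    (hex : ∀ j ∈ K, ∃ a ∈ M, a j ≠ 0)
    (hR : ∀ K' ⊆ K, 2 * K'.card ≤ Module.finrank ℚ (Submodule.span ℚ
      {v : σ → ℚ | ∃ a ∈ M, (∃ j ∈ K', a j ≠ 0) ∧ v = fun i => (a i : ℚ)})) :
    RadC (fun j : K => gp M c P j.1) := by
  classical
  intro S
  choose! b hb hbj using hex
  set K' : Finset σ := S.map (Function.Embedding.subtype _) with hK'
  have hK'K : K' ⊆ K := by
    intro j hj
    obtain ⟨x, -, rfl⟩ := Finset.mem_map.1 hj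
    exact x.2
  have hcard : K'.card = S.card := Finset.card_map _
  have hmem : ∀ j ∈ K', ∃ h : j ∈ K, (⟨j, h⟩ : K) ∈ S := by
    intro j hj
    obtain ⟨x, hx, rfl⟩ := Finset.mem_map.1 hj
    exact ⟨x.2, hx⟩
  have h1 := hR K' hK'K
  set D := Submodule.span ℚ {v : {i // i ∉ P} → ℚ | ∃ j ∈ S, ∃ e ∈ (gp M c P j.1).support,
    ∃ e' ∈ (gp M c P j.1).support, v = fun i => (e i : ℚ) - (e' i : ℚ)} with hD
  set B : Finset (σ → ℚ) := K'.image fun j => fun i => (b j i : ℚ) with hB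
  have hle : Submodule.span ℚ {v : σ → ℚ | ∃ a ∈ M, (∃ j ∈ K', a j ≠ 0) ∧
      v = fun i => (a i : ℚ)} ≤ Submodule.span ℚ (B : Set (σ → ℚ)) ⊔ Submodule.map (ext0 P) D := by
    rw [Submodule.span_le]
    rintro v ⟨a, ha, ⟨j, hj, haj⟩, rfl⟩
    obtain ⟨hjK, hjS⟩ := hmem j hj
    have hbM := hb j hjK
    have hbb := hbj j hjK
    have h3 : (fun i => (a i : ℚ)) = (fun i => (b j i : ℚ)) +
        ext0 P (fun i => (rho P a i : ℚ) - (rho P (b j) i : ℚ)) := by
      funext i
      rw [Pi.add_apply]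
      show (a i : ℚ) = (b j i : ℚ) + (if h : i ∈ P then 0 else
        ((rho P a ⟨i, h⟩ : ℚ) - (rho P (b j) ⟨i, h⟩ : ℚ)))
      by_cases hi : i ∈ P
      · rw [dif_pos hi, add_zero]
        by_cases hij : i = j
        · rw [hij, (hM a ha j hjK haj).1, (hM _ hbM j hjK hbb).1]
        · rw [(hM a ha j hjK haj).2 i hi hij, (hM _ hbM j hjK hbb).2 i hi hij]
      · rw [dif_neg hi, rho_apply, rho_apply]
        ring
    rw [h3]
    refine Submodule.add_mem_sup (Submodule.subset_span ?_) (Submodule.mem_map_of_mem ?_)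
    · exact Finset.mem_coe.2 (Finset.mem_image_of_mem _ hj)
    · refine Submodule.subset_span ⟨⟨j, hjK⟩, hjS, rho P a, ?_, rho P (b j), ?_, rfl⟩
      · exact (mem_supp_gp hM hc hjK _).2 ⟨a, ha, haj, rfl⟩
      · exact (mem_supp_gp hM hc hjK _).2 ⟨b j, hbM, hbb, rfl⟩
  have h2 := Submodule.finrank_mono hle
  have h3 := Submodule.finrank_add_le_finrank_add_finrank (Submodule.span ℚ (B : Set (σ → ℚ)))
    (Submodule.map (ext0 P) D)
  have h4 : Module.finrank ℚ (Submodule.span ℚ (B : Set (σ → ℚ))) ≤ B.card :=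
    finrank_span_finset_le_card B
  have h5 : B.card ≤ K'.card := Finset.card_image_le
  have h6 : Module.finrank ℚ (Submodule.map (ext0 P) D) ≤ Module.finrank ℚ D :=
    Submodule.finrank_map_le _ _
  show S.card ≤ Module.finrank ℚ D
  omega

/-- `X i ↦ 1` for `i ∈ P` -/
noncomputable def psi [Field k] (P : Finset σ) :
    MvPolynomial σ k →ₐ[k] MvPolynomial {i // i ∉ P} k :=
  aeval fun i => if h : i ∈ P then 1 else X ⟨i, h⟩

theorem psi_monomial [Field k] (P : Finset σ) (a : σ →₀ ℕ) (r : k) :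
    psi P (monomial (offP P a) r) = monomial (rho P a) r := by
  classical
  unfold psi
  rw [aeval_monomial, monomial_eq, Finsupp.prod_fintype, Finsupp.prod_fintype]
  · refine congrArg₂ (· * ·) rfl ?_
    have h1 := Fintype.prod_subtype_mul_prod_subtype (fun i => i ∈ P)
      (fun i => (if h : i ∈ P then (1 : MvPolynomial {i // i ∉ P} k) else X ⟨i, h⟩) ^
        (offP P a) i)
    rw [← h1]
    have h2 : ∀ F : Fintype {i // i ∈ P}, ∏ i ∈ @Finset.univ _ F,
        (if h : i.1 ∈ P then (1 : MvPolynomial {i // i ∉ P} k)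
        else X ⟨i.1, h⟩) ^ (offP P a) i.1 = 1 := by
      intro F
      refine Finset.prod_eq_one fun i _ => ?_
      rw [dif_pos i.2, one_pow]
    rw [h2, one_mul]
    refine Finset.prod_congr rfl fun i _ => ?_
    rw [dif_neg i.2, rho_apply]
    unfold offP
    rw [Finsupp.filter_apply_pos (fun i => i ∉ P) a i.2]
  · intro i
    exact pow_zero _
  · intro i
    exact pow_zero _

/-- Row BZI. -/
theorem bzi (h : BezStmt) : BziStmt := by
  classical
  intro k σ _ _ _ _ M c P K hKP hc hM hT hR N q hrel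
  have hex : ∀ j ∈ K, ∃ a ∈ M, a j ≠ 0 := by
    intro j hj
    by_contra hcon
    push Not at hcon
    have h1 := hR {j} (Finset.singleton_subset_iff.2 hj)
    have h2 : {v : σ → ℚ | ∃ a ∈ M, (∃ j' ∈ ({j} : Finset σ), a j' ≠ 0) ∧
        v = fun i => (a i : ℚ)} = ∅ := by
      ext v
      simp only [Set.mem_ofPred_eq, Set.mem_empty_iff_false, iff_false]
      rintro ⟨a, ha, ⟨j', hj', haj⟩, -⟩
      rw [Finset.mem_singleton.1 hj'] at haj
      exact haj (hcon a ha)
    rw [h2, Submodule.span_empty, finrank_bot, Finset.card_singleton] at h1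
    omega
  refine h k K {i // i ∉ P} (fun j : K => gp M c P j.1) (radc hM hc hex hR)
    (ndg hKP hM hc hex hT) N (fun j => psi P (q j.1)) ?_
  have h3 := congrArg (psi P) hrel
  rw [map_pow, map_prod, map_sum] at h3
  have h4 : ∏ i ∈ Finset.univ \ P, psi P (X i : MvPolynomial σ k) =
      ∏ i : {i // i ∉ P}, X i := by
    have h5 : ∀ x, x ∈ Finset.univ \ P ↔ x ∉ P := by
      intro x
      simp
    rw [Finset.prod_subtype (Finset.univ \ P) h5]
    refine Finset.prod_congr rfl fun i _ => ?_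
    unfold psi
    rw [aeval_X, dif_neg i.2]
  rw [h4] at h3
  rw [h3, ← Finset.sum_coe_sort K]
  refine Finset.sum_congr rfl fun j _ => ?_
  rw [map_mul, map_sum]
  unfold gp
  refine congrArg₂ (· * ·) (Finset.sum_congr rfl fun a _ => ?_) rfl
  exact psi_monomial P a (c a)

end Pool.Agent.BEZ.H51
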